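import Mathlib
import Pool.Agent.Helper21.SR.St

/-! Module ELIM of project SR (MP_cc0731_co). -/

namespace Pool.Agent.Helper32.SR

open Finset
open scoped Pointwise
open Pool.Agent.Helper21.SR

theorem elim_sign (hEn : StEn) (A B : Finset ℝ) (Pt : ℝ → Finset ℝ) (τ M : ℕ) (s t r e : ℝ)
    (G : Finset (ℝ × ℝ)) (he : e * e = 1) (_hA : ∀ a ∈ A, 0 < a) (hB : #B = M)
    (hPt : ∀ u ∈ B, Pt u ⊆ A ∧ #(Pt u) = τ) (hs : s ∈ B) (ht : t ∈ B) (hrs : r ≠ s) (hrt : r ≠ t)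
    (hG : G ⊆ Pt s ×ˢ Pt t)
    (hpos : ∀ p ∈ G, 0 < e * ((s - r) * p.1 + (t - r) * p.2))
    (hex : ∀ p ∈ G, ∃ r' ∈ B, r' ≠ r ∧ ∃ z ∈ Pt r, ∃ x' ∈ Pt r',
        p.1 + p.2 = z + x' ∧ s * p.1 + t * p.2 = r * z + r' * x') :
    #G ^ 4 ≤ 65536 * τ ^ 6 * (Nat.log 2 τ + 2) * (M ^ 2 * #(A * A)) := by
  have he0 : e ≠ 0 := by
    rintro rfl
    norm_num at he
  have hsr : s - r ≠ 0 := sub_ne_zero.mpr (Ne.symm hrs)
  have htr : t - r ≠ 0 := sub_ne_zero.mpr (Ne.symm hrt)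
  set X := (Pt s).image (fun x => -(e * (s - r)) * x) with hX
  set S := (Pt t).image (fun y => e * (t - r) * y) with hS
  set Y := G.image (fun p : ℝ × ℝ => e * ((s - r) * p.1 + (t - r) * p.2)) with hY
  set Γ := G.image (fun p : ℝ × ℝ =>
    (-(e * (s - r)) * p.1, e * ((s - r) * p.1 + (t - r) * p.2))) with hΓ
  have hXc : #X ≤ τ := by
    rw [← (hPt s hs).2]; exact card_image_le
  have hSc : #S ≤ τ := by
    rw [← (hPt t ht).2]; exact card_image_le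
  have hYpos : ∀ y ∈ Y, 0 < y := by
    intro y hy
    obtain ⟨p, hp, rfl⟩ := mem_image.mp hy
    exact hpos p hp
  have hΓm : ∀ p ∈ Γ, p.1 ∈ X ∧ p.2 ∈ Y ∧ p.1 + p.2 ∈ S := by
    intro q hq
    obtain ⟨p, hp, rfl⟩ := mem_image.mp hq
    have hpm := mem_product.mp (hG hp)
    refine ⟨mem_image.mpr ⟨p.1, hpm.1, rfl⟩, mem_image.mpr ⟨p, hp, rfl⟩, ?_⟩
    refine mem_image.mpr ⟨p.2, hpm.2, ?_⟩
    ring
  have hcard : #Γ = #G := by
    apply card_image_of_injective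
    rintro ⟨x, y⟩ ⟨x', y'⟩ h
    simp only [Prod.mk.injEq] at h
    obtain ⟨h1, h2⟩ := h
    have hx : x = x' := by
      have h0 : -(e * (s - r)) ≠ 0 := neg_ne_zero.mpr (mul_ne_zero he0 hsr)
      exact mul_left_cancel₀ h0 h1
    subst hx
    have hy : y = y' := by
      have h3 := mul_left_cancel₀ he0 h2
      have h4 : (t - r) * y = (t - r) * y' := by linarith
      exact mul_left_cancel₀ htr h4
    rw [hy]
  have hYsub : ∀ y ∈ Y, ∃ u ∈ B, ∃ a ∈ A, y = e * ((u - r) * a) := by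
    intro y hy
    obtain ⟨p, hp, rfl⟩ := mem_image.mp hy
    obtain ⟨r', hr', -, z, -, x', hx', h1, h2⟩ := hex p hp
    refine ⟨r', hr', x', (hPt r' hr').1 hx', ?_⟩
    congr 1
    have : z = p.1 + p.2 - x' := by linarith
    rw [this] at h2
    linear_combination h2
  have hYY : #(Y * Y) ≤ M ^ 2 * #(A * A) := by
    have hsub : Y * Y ⊆ ((B ×ˢ B) ×ˢ (A * A)).image
        (fun q : (ℝ × ℝ) × ℝ => (q.1.1 - r) * (q.1.2 - r) * q.2) := by
      intro w hw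
      obtain ⟨y1, hy1, y2, hy2, rfl⟩ := mem_mul.mp hw
      obtain ⟨u1, hu1, a1, ha1, rfl⟩ := hYsub y1 hy1
      obtain ⟨u2, hu2, a2, ha2, rfl⟩ := hYsub y2 hy2
      refine mem_image.mpr ⟨((u1, u2), a1 * a2), ?_, ?_⟩
      · exact mem_product.mpr ⟨mem_product.mpr ⟨hu1, hu2⟩, mul_mem_mul ha1 ha2⟩
      · show (u1 - r) * (u2 - r) * (a1 * a2) = _
        linear_combination (-(u1 - r) * (u2 - r) * (a1 * a2)) * he
    calc #(Y * Y) ≤ _ := card_le_card hsub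
      _ ≤ #((B ×ˢ B) ×ˢ (A * A)) := card_image_le
      _ = M ^ 2 * #(A * A) := by
        rw [card_product, card_product, hB]; ring
  have h := hEn X S Y Γ τ hXc hSc hYpos hΓm
  rw [hcard] at h
  exact h.trans (Nat.mul_le_mul_left _ hYY)

/-- ELIM. -/
theorem hElim (hEn : StEn) : StElim := by
  intro A B Pt τ M s t r Γ0 hA hB hPt hs ht hr hst hrs hrt hΓ0 hex
  classical
  set G1 := Γ0.filter (fun p => 0 < (1 : ℝ) * ((s - r) * p.1 + (t - r) * p.2)) with hG1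
  set G2 := Γ0.filter (fun p => 0 < (-1 : ℝ) * ((s - r) * p.1 + (t - r) * p.2)) with hG2
  have h1 := elim_sign hEn A B Pt τ M s t r 1 G1 (by norm_num) hA hB hPt hs ht hrs hrt
    ((filter_subset _ _).trans hΓ0) (fun p hp => (mem_filter.mp hp).2)
    (fun p hp => hex p (mem_filter.mp hp).1)
  have h2 := elim_sign hEn A B Pt τ M s t r (-1) G2 (by norm_num) hA hB hPt hs ht hrs hrt
    ((filter_subset _ _).trans hΓ0) (fun p hp => (mem_filter.mp hp).2)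
    (fun p hp => hex p (mem_filter.mp hp).1)
  have hcov : Γ0 ⊆ G1 ∪ G2 := by
    intro p hp
    obtain ⟨r', hr', hne, z, -, x', hx', e1, e2⟩ := hex p hp
    have hx0 : 0 < x' := hA x' ((hPt r' hr').1 hx')
    have hη : (s - r) * p.1 + (t - r) * p.2 = (r' - r) * x' := by
      have : z = p.1 + p.2 - x' := by linarith
      rw [this] at e2
      linear_combination e2
    have hne0 : (s - r) * p.1 + (t - r) * p.2 ≠ 0 := by
      rw [hη]
      exact mul_ne_zero (sub_ne_zero.mpr hne) hx0.ne'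
    rcases lt_or_gt_of_ne hne0 with h | h
    · exact mem_union_right _ (mem_filter.mpr ⟨hp, by linarith⟩)
    · exact mem_union_left _ (mem_filter.mpr ⟨hp, by linarith⟩)
  have hc : #Γ0 ≤ #G1 + #G2 := (card_le_card hcov).trans (card_union_le _ _)
  have hpow : (#G1 + #G2) ^ 4 ≤ 8 * (#G1 ^ 4 + #G2 ^ 4) := by
    have h3 : ∀ a b : ℕ, (a + b) ^ 4 ≤ 8 * (a ^ 4 + b ^ 4) := by
      intro a b
      have h2 : (a + b) ^ 2 ≤ 2 * (a ^ 2 + b ^ 2) := by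
        zify
        nlinarith [sq_nonneg ((a : ℤ) - b)]
      have h4 : (a ^ 2 + b ^ 2) ^ 2 ≤ 2 * ((a ^ 2) ^ 2 + (b ^ 2) ^ 2) := by
        zify
        nlinarith [sq_nonneg ((a : ℤ) ^ 2 - b ^ 2)]
      calc (a + b) ^ 4 = ((a + b) ^ 2) ^ 2 := by ring
        _ ≤ (2 * (a ^ 2 + b ^ 2)) ^ 2 := Nat.pow_le_pow_left h2 2
        _ = 4 * (a ^ 2 + b ^ 2) ^ 2 := by ring
        _ ≤ 4 * (2 * ((a ^ 2) ^ 2 + (b ^ 2) ^ 2)) := Nat.mul_le_mul_left _ h4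
        _ = 8 * (a ^ 4 + b ^ 4) := by ring
    exact h3 _ _
  calc #Γ0 ^ 4 ≤ (#G1 + #G2) ^ 4 := Nat.pow_le_pow_left hc 4
    _ ≤ 8 * (#G1 ^ 4 + #G2 ^ 4) := hpow
    _ ≤ 8 * (65536 * τ ^ 6 * (Nat.log 2 τ + 2) * (M ^ 2 * #(A * A)) +
        65536 * τ ^ 6 * (Nat.log 2 τ + 2) * (M ^ 2 * #(A * A))) := by gcongr
    _ = 1048576 * τ ^ 6 * (Nat.log 2 τ + 2) * M ^ 2 * #(A * A) := by ring

end Pool.Agent.Helper32.SR
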